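import Pool.Agent.H1.Mono.Targets
import Pool.Agent.H1.Mono.Targets2
import Pool.Agent.H92.Mono.Fr

/-!
# Module FR2: full range for the alphabet of bit strings
-/

open Finset

namespace Pool.Agent.H97.Mono

open Pool.Agent.H1.Mono

lemma sgn_inj {a b : Bool} (h : sgn a = sgn b) : a = b := by
  unfold sgn at h
  cases a <;> cases b <;> simp at h <;> first | rfl | (exfalso; norm_num at h)

lemma sgn_ne_zero (a : Bool) : sgn a ≠ 0 := by
  unfold sgn
  cases a <;> simp

lemma abs_sgn (a : Bool) : |sgn a| = 1 := by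
  unfold sgn
  cases a <;> simp

lemma prod_sgn_cases {β : Type} (T : Finset β) (v : β → Bool) :
    ∏ b ∈ T, sgn (v b) = 1 ∨ ∏ b ∈ T, sgn (v b) = -1 := by
  classical
  induction T using Finset.induction_on with
  | empty => left; simp
  | insert b T hb ih =>
    rw [Finset.prod_insert hb]
    have h1 : sgn (v b) = 1 ∨ sgn (v b) = -1 := by
      unfold sgn
      cases v b <;> simp
    rcases h1 with h | h <;> rcases ih with h' | h' <;> rw [h, h'] <;> norm_num

/-- the parity of `v` on `T` -/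
noncomputable def par {β : Type} (T : Finset β) (v : β → Bool) : Bool :=
  @decide (∏ b ∈ T, sgn (v b) = -1) (Classical.propDecidable _)

lemma sgn_par {β : Type} (T : Finset β) (v : β → Bool) : sgn (par T v) = ∏ b ∈ T, sgn (v b) := by
  unfold par
  rcases prod_sgn_cases T v with h | h
  · rw [h]
    have : ¬ ((1 : ℝ) = -1) := by norm_num
    simp [sgn, this]
  · rw [h]
    simp [sgn]

lemma par_inj {β : Type} [DecidableEq β] (T : Finset β) (b0 : β) (hb0 : b0 ∈ T) (v v' : β → Bool)
    (hpar : par T v = par T v') (h : ∀ b, b ≠ b0 → v b = v' b) : v = v' := by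
  have h1 : ∏ b ∈ T, sgn (v b) = ∏ b ∈ T, sgn (v' b) := by
    rw [← sgn_par, ← sgn_par, hpar]
  rw [← Finset.mul_prod_erase T _ hb0, ← Finset.mul_prod_erase T (fun b => sgn (v' b)) hb0] at h1
  have h2 : ∏ b ∈ T.erase b0, sgn (v b) = ∏ b ∈ T.erase b0, sgn (v' b) :=
    Finset.prod_congr rfl fun b hb => by rw [h b (Finset.ne_of_mem_erase hb)]
  rw [h2] at h1
  have h3 : ∏ b ∈ T.erase b0, sgn (v' b) ≠ 0 := Finset.prod_ne_zero_iff.2 fun b _ => sgn_ne_zero _
  have h4 : sgn (v b0) = sgn (v' b0) := mul_right_cancel₀ h3 h1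
  funext b
  by_cases hb : b = b0
  · rw [hb]; exact sgn_inj h4
  · exact h b hb

variable {V Q : Type} [Fintype V] [DecidableEq V] [Fintype Q] [DecidableEq Q] {a : ℕ}

/-- the character sum of a family of sets of bits -/
noncomputable def gT (Y : Finset (V → Q → Fin a → Bool)) (τ : V → Finset (Fin a)) (x : V → Q) : ℝ :=
  ∑ y ∈ Y, ∏ i, ∏ b ∈ τ i, sgn (y i (x i) b)

/-- the support of the family -/
def supp (τ : V → Finset (Fin a)) : Finset V := Finset.univ.filter fun i => τ i ≠ ∅

/-- the parities -/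
noncomputable def uu (τ' : V → Finset (Fin a)) (y : V → Q → Fin a → Bool) : V → Q → Bool :=
  fun i q => par (τ' i) (y i q)

/-- few points have given parities -/
lemma fibre_card (τ' : V → Finset (Fin a)) (hτ : ∀ i, (τ' i).Nonempty) (w : V → Q → Bool) :
    (Finset.univ.filter fun y : V → Q → Fin a → Bool => uu τ' y = w).card ≤
      2 ^ (Fintype.card V * Fintype.card Q * (a - 1)) := by
  classical
  choose b0 hb0 using hτ
  have h1 : (Finset.univ.filter fun y : V → Q → Fin a → Bool => uu τ' y = w).card ≤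
      (Finset.univ : Finset ((i : V) → Q → {b : Fin a // b ≠ b0 i} → Bool)).card := by
    refine Finset.card_le_card_of_injOn (fun y i q b => y i q b.1) (fun _ _ => Finset.mem_univ _) ?_
    intro y hy y' hy' h
    have hy1 : uu τ' y = w := by simpa using hy
    have hy2 : uu τ' y' = w := by simpa using hy'
    funext i q
    refine par_inj (τ' i) (b0 i) (hb0 i) _ _ ?_ ?_
    · have := congrFun (congrFun (hy1.trans hy2.symm) i) q
      exact this
    · intro b hb
      have h3 := congrFun (congrFun (congrFun h i) q) ⟨b, hb⟩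
      exact h3
  refine h1.trans (le_of_eq ?_)
  rw [Finset.card_univ, Fintype.card_pi]
  have h2 : ∀ i : V, Fintype.card (Q → {b : Fin a // b ≠ b0 i} → Bool) =
      2 ^ (Fintype.card Q * (a - 1)) := by
    intro i
    rw [Fintype.card_fun, Fintype.card_fun, Fintype.card_bool]
    have h3 : Fintype.card {b : Fin a // b ≠ b0 i} = a - 1 := by
      rw [Fintype.card_subtype_compl, Fintype.card_fin]
      simp
    rw [h3, ← pow_mul, mul_comm]
  rw [Finset.prod_congr rfl fun i _ => h2 i, Finset.prod_const, Finset.card_univ, ← pow_mul]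
  congr 1
  ring

/-- second moment -/
lemma second_moment2 (hLVL : LVL2_target) (ha : 0 < a) (X : Finset (V → Q)) (I : Finset V)
    (lam : ℝ) (Y : Finset (V → Q → Fin a → Bool)) (Δ : ℕ) (hX : X.Nonempty) (hlam : 0 ≤ lam)
    (hD : Dense lam I X) (hΔ : 0 < Δ)
    (hY : 2 ^ (Fintype.card V * Fintype.card Q * a) ≤ Y.card * 2 ^ Δ)
    (τ : V → Finset (Fin a)) (hK : Disjoint (supp τ) I) :
    ∑ x ∈ X, gT Y τ x ^ 2 ≤
      lam ^ (supp τ).card * X.card * (2 * (2 * Δ : ℝ) ^ (supp τ).card * (Y.card : ℝ) ^ 2) := by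
  classical
  set K := supp τ with hKdef
  -- the family made nonempty everywhere
  set τ' : V → Finset (Fin a) := fun i => if τ i = ∅ then {⟨0, ha⟩} else τ i with hτ'
  have hτ'ne : ∀ i, (τ' i).Nonempty := by
    intro i
    rw [hτ']
    by_cases h : τ i = ∅
    · simp [h]
    · simp only [h, if_false]
      exact Finset.nonempty_iff_ne_empty.2 h
  set f : (V → Q → Bool) → ℝ := fun u => ((Y.filter fun y => uu τ' y = u).card : ℝ) with hf
  have hfsum : ∀ G : (V → Q → Bool) → ℝ, ∑ y ∈ Y, G (uu τ' y) = ∑ u, f u * G u := by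
    intro G
    rw [← Finset.sum_fiberwise Y (fun y => uu τ' y)]
    refine Finset.sum_congr rfl fun u _ => ?_
    rw [Finset.sum_congr rfl (g := fun _ => G u), Finset.sum_const, nsmul_eq_mul]
    intro y hy
    rw [(Finset.mem_filter.1 hy).2]
  have hfY : ∑ u, f u = Y.card := by
    have := hfsum fun _ => 1
    simp only [mul_one, Finset.sum_const, nsmul_eq_mul] at this
    exact this.symm
  -- the coefficients
  set cc : ({i // i ∈ K} → Q) → ℝ := fun β => ∑ u, f u * ∏ i : {i // i ∈ K}, sgn (u i.1 (β i))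
    with hcc
  have hg : ∀ x : V → Q, gT Y τ x = cc (fun i => x i.1) := by
    intro x
    rw [hcc, gT]
    refine Eq.trans ?_ (hfsum (fun u => ∏ i : {i // i ∈ K}, sgn (u i.1 (x i.1))))
    refine Finset.sum_congr rfl fun y _ => ?_
    rw [Finset.prod_coe_sort K (fun i => sgn (uu τ' y i (x i)))]
    rw [← Finset.prod_subset (Finset.subset_univ K)]
    · refine Finset.prod_congr rfl fun i hi => ?_
      rw [uu, sgn_par, hτ']
      have hi' : i ∈ Finset.univ.filter fun i => τ i ≠ ∅ := hi
      have : τ i ≠ ∅ := (Finset.mem_filter.1 hi').2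
      simp only [this, if_false]
    · intro i _ hi
      have : τ i = ∅ := by
        by_contra h
        have hi' : i ∈ Finset.univ.filter fun i => τ i ≠ ∅ :=
          Finset.mem_filter.2 ⟨Finset.mem_univ _, h⟩
        exact hi hi'
      rw [this, Finset.prod_empty]
  have h1 : ∑ x ∈ X, gT Y τ x ^ 2 =
      ∑ β : {i // i ∈ K} → Q, ((X.filter fun x => (fun i : {i // i ∈ K} => x i.1) = β).card : ℝ) *
        cc β ^ 2 := by
    simp_rw [hg]
    rw [← Finset.sum_fiberwise X (fun x => (fun i : {i // i ∈ K} => x i.1))]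
    refine Finset.sum_congr rfl fun β _ => ?_
    rw [Finset.sum_congr rfl (g := fun _ => cc β ^ 2), Finset.sum_const, nsmul_eq_mul]
    intro x hx
    rw [(Finset.mem_filter.1 hx).2]
  obtain ⟨x0, hx0⟩ := hX
  have h2 : ∀ β : {i // i ∈ K} → Q,
      ((X.filter fun x => (fun i : {i // i ∈ K} => x i.1) = β).card : ℝ) ≤ lam ^ K.card * X.card := by
    intro β
    have h3 := hD K hK (fun i => if h : i ∈ K then β ⟨i, h⟩ else x0 i)
    refine le_trans ?_ h3
    have : (X.filter fun x => (fun i : {i // i ∈ K} => x i.1) = β) ⊆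
        X.filter fun x => ∀ i ∈ K, x i = (if h : i ∈ K then β ⟨i, h⟩ else x0 i) := by
      intro x hx
      rw [Finset.mem_filter] at hx ⊢
      refine ⟨hx.1, fun i hi => ?_⟩
      rw [dif_pos hi, ← hx.2]
    exact_mod_cast Finset.card_le_card this
  rw [h1]
  refine (Finset.sum_le_sum fun β _ => mul_le_mul_of_nonneg_right (h2 β) (sq_nonneg _)).trans ?_
  rw [← Finset.mul_sum]
  have hYc : (0 : ℝ) < Y.card := by
    rcases Y.eq_empty_or_nonempty with h | h
    · rw [h, Finset.card_empty, Nat.zero_mul] at hY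
      exact absurd hY (not_le.2 (by positivity))
    · exact_mod_cast h.card_pos
  have hlvl := hLVL f (2 ^ (Fintype.card V * Fintype.card Q * (a - 1))) K Δ hΔ
    (fun u => Nat.cast_nonneg _) (by
      intro u
      have h4 : (Y.filter fun y => uu τ' y = u).card ≤
          (Finset.univ.filter fun y : V → Q → Fin a → Bool => uu τ' y = u).card :=
        Finset.card_le_card fun y hy => by
          rw [Finset.mem_filter] at hy ⊢
          exact ⟨Finset.mem_univ _, hy.2⟩
      have h5 := h4.trans (fibre_card τ' hτ'ne u)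
      show ((Y.filter fun y => uu τ' y = u).card : ℝ) ≤ _
      exact_mod_cast h5) (by rw [hfY]; exact hYc) (by
      rw [hfY, ← pow_add]
      have e : Fintype.card V * Fintype.card Q * (a - 1) + Fintype.card V * Fintype.card Q =
          Fintype.card V * Fintype.card Q * a := by
        obtain ⟨m, rfl⟩ : ∃ m, a = m + 1 := ⟨a - 1, by omega⟩
        rw [Nat.add_sub_cancel]
        ring
      rw [e]
      exact_mod_cast hY)
  rw [hfY] at hlvl
  exact mul_le_mul_of_nonneg_left hlvl (by positivity)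

/-- the index sets of the expansion -/
def tI (a : ℕ) (I : Finset V) (i : V) : Finset (Finset (Fin a)) :=
  if i ∈ I then {∅} else Finset.univ

/-- positivity of the Fourier expansion gives a point -/
lemma exists_y2 (Y : Finset (V → Q → Fin a → Bool)) (I : Finset V) (x : V → Q)
    (h : ∑ τ ∈ (Fintype.piFinset (tI a I)).erase (fun _ => ∅), |gT Y τ x| < Y.card)
    (z : V → Fin a → Bool) :
    ∃ y ∈ Y, ∀ i, i ∉ I → y i (x i) = z i := by
  classical
  by_contra hno
  push Not at hno
  have hzero : ∀ y ∈ Y,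
      ∏ i, ∑ τ ∈ tI a I i, ∏ b ∈ τ, (sgn (z i b) * sgn (y i (x i) b)) = 0 := by
    intro y hy
    obtain ⟨i, hi, hne⟩ := hno y hy
    refine Finset.prod_eq_zero (Finset.mem_univ i) ?_
    have h1 : tI a I i = (Finset.univ : Finset (Fin a)).powerset := by
      rw [tI, if_neg hi, Finset.powerset_univ]
    rw [h1, ← Finset.prod_one_add]
    obtain ⟨b, hb⟩ := Function.ne_iff.1 hne
    refine Finset.prod_eq_zero (Finset.mem_univ b) ?_
    rw [Pool.Agent.H92.Mono.sgn_mul, if_neg (Ne.symm hb)]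
    norm_num
  have h1 : ∑ y ∈ Y, ∏ i, ∑ τ ∈ tI a I i, ∏ b ∈ τ, (sgn (z i b) * sgn (y i (x i) b)) =
      ∑ τ ∈ Fintype.piFinset (tI a I), (∏ i, ∏ b ∈ τ i, sgn (z i b)) * gT Y τ x := by
    unfold gT
    simp_rw [Finset.prod_univ_sum, Finset.prod_mul_distrib]
    rw [Finset.sum_comm]
    refine Finset.sum_congr rfl fun τ _ => ?_
    rw [Finset.mul_sum]
  rw [Finset.sum_eq_zero hzero] at h1
  have hmem : (fun _ => ∅) ∈ Fintype.piFinset (tI a I) := by
    rw [Fintype.mem_piFinset]
    intro i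
    rw [tI]
    split_ifs <;> simp
  rw [← Finset.add_sum_erase _ _ hmem] at h1
  have h2 : gT Y (fun _ => ∅) x = Y.card := by
    unfold gT
    simp
  rw [h2] at h1
  simp only [Finset.prod_empty, Finset.prod_const_one, one_mul] at h1
  have h3 : -(∑ τ ∈ (Fintype.piFinset (tI a I)).erase (fun _ => ∅), |gT Y τ x|) ≤
      ∑ τ ∈ (Fintype.piFinset (tI a I)).erase (fun _ => ∅),
        (∏ i, ∏ b ∈ τ i, sgn (z i b)) * gT Y τ x := by
    rw [← Finset.sum_neg_distrib]
    refine Finset.sum_le_sum fun τ _ => ?_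
    have h4 : |(∏ i, ∏ b ∈ τ i, sgn (z i b)) * gT Y τ x| = |gT Y τ x| := by
      rw [abs_mul, Finset.abs_prod]
      have : ∏ i, |∏ b ∈ τ i, sgn (z i b)| = 1 := by
        refine Finset.prod_eq_one fun i _ => ?_
        rw [Finset.abs_prod]
        exact Finset.prod_eq_one fun b _ => abs_sgn _
      rw [this, one_mul]
    rw [← h4]
    exact neg_abs_le _
  linarith

theorem fr2 (hLVL : LVL2_target) : FR2_target := by
  intro V Q _ _ _ _ a X I lam Y Δ hX hlam hD hΔ hY hsmall
  classical
  have hYne : Y.Nonempty := by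
    rcases Y.eq_empty_or_nonempty with h | h
    · rw [h, Finset.card_empty, Nat.zero_mul] at hY
      exact absurd hY (not_le.2 (by positivity))
    · exact h
  rcases Nat.eq_zero_or_pos a with ha | ha
  · subst ha
    obtain ⟨x, hx⟩ := hX
    obtain ⟨y, hy⟩ := hYne
    exact ⟨x, hx, fun z => ⟨y, hy, fun i _ => funext fun b => Fin.elim0 b⟩⟩
  have hYc : (0 : ℝ) < Y.card := by exact_mod_cast hYne.card_pos
  have hXc : (0 : ℝ) < X.card := by exact_mod_cast hX.card_pos
  set θ := Real.sqrt (2 * Δ * lam) with hθ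
  have hθ0 : 0 ≤ θ := Real.sqrt_nonneg _
  have hθ2 : θ ^ 2 = 2 * Δ * lam := Real.sq_sqrt (by positivity)
  have hθn : (2 ^ a * θ) * Fintype.card V ≤ 1 / 4 := by
    have h1 : ((2 ^ a * θ) * Fintype.card V) ^ 2 ≤ (1 / 4) ^ 2 := by
      have e : ((2 : ℝ) ^ a) ^ 2 = 4 ^ a := by
        rw [← pow_mul, mul_comm, pow_mul]
        norm_num
      rw [mul_pow, mul_pow, hθ2, e]
      linarith
    exact le_of_pow_le_pow_left₀ two_ne_zero (by norm_num) h1
  -- first moment
  have hfirst : ∀ τ : V → Finset (Fin a), Disjoint (supp τ) I →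
      ∑ x ∈ X, |gT Y τ x| ≤ 3 / 2 * θ ^ (supp τ).card * X.card * Y.card := by
    intro τ hK
    have h1 := second_moment2 hLVL ha X I lam Y Δ hX hlam hD hΔ hY τ hK
    have h2 : (∑ x ∈ X, |gT Y τ x|) ^ 2 ≤ X.card * ∑ x ∈ X, |gT Y τ x| ^ 2 :=
      sq_sum_le_card_mul_sum_sq
    simp_rw [sq_abs] at h2
    have h3 : (∑ x ∈ X, |gT Y τ x|) ^ 2 ≤
        (3 / 2 * θ ^ (supp τ).card * X.card * Y.card) ^ 2 := by
      refine h2.trans ((mul_le_mul_of_nonneg_left h1 hXc.le).trans ?_)
      have e1 : (3 / 2 * θ ^ (supp τ).card * X.card * Y.card) ^ 2 =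
          9 / 4 * ((θ ^ 2) ^ (supp τ).card) * (X.card : ℝ) ^ 2 * (Y.card : ℝ) ^ 2 := by
        rw [← pow_mul, mul_comm 2 (supp τ).card, pow_mul]
        ring
      have e2 : (X.card : ℝ) * (lam ^ (supp τ).card * X.card *
          (2 * (2 * Δ : ℝ) ^ (supp τ).card * (Y.card : ℝ) ^ 2)) =
          2 * ((θ ^ 2) ^ (supp τ).card) * (X.card : ℝ) ^ 2 * (Y.card : ℝ) ^ 2 := by
        rw [hθ2, mul_pow (2 * (Δ : ℝ)) lam]
        ring
      rw [e1, e2]
      have : 0 ≤ (θ ^ 2) ^ (supp τ).card * (X.card : ℝ) ^ 2 * (Y.card : ℝ) ^ 2 := by positivity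
      nlinarith
    exact le_of_pow_le_pow_left₀ two_ne_zero (by positivity) h3
  have hdisj : ∀ τ ∈ Fintype.piFinset (tI a I), Disjoint (supp τ) I := by
    intro τ hτ
    rw [Fintype.mem_piFinset] at hτ
    refine Finset.disjoint_left.2 fun i hi hi' => ?_
    have h1 := hτ i
    rw [tI, if_pos hi', Finset.mem_singleton] at h1
    exact (Finset.mem_filter.1 hi).2 h1
  have hmem : (fun _ => ∅) ∈ Fintype.piFinset (tI a I) := by
    rw [Fintype.mem_piFinset]
    intro i
    rw [tI]
    split_ifs <;> simp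
  have hsum : ∑ x ∈ X, ∑ τ ∈ (Fintype.piFinset (tI a I)).erase (fun _ => ∅), |gT Y τ x| <
      ∑ _x ∈ X, (Y.card : ℝ) := by
    rw [Finset.sum_comm, Finset.sum_const, nsmul_eq_mul]
    have h1 : ∑ τ ∈ (Fintype.piFinset (tI a I)).erase (fun _ => ∅), ∑ x ∈ X, |gT Y τ x| ≤
        ∑ τ ∈ (Fintype.piFinset (tI a I)).erase (fun _ => ∅),
          3 / 2 * θ ^ (supp τ).card * X.card * Y.card :=
      Finset.sum_le_sum fun τ hτ => hfirst τ (hdisj τ (Finset.mem_of_mem_erase hτ))
    have h2 : ∑ τ ∈ Fintype.piFinset (tI a I), θ ^ (supp τ).card ≤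
        (1 + 2 ^ a * θ) ^ Fintype.card V := by
      have e1 : ∀ τ : V → Finset (Fin a), θ ^ (supp τ).card =
          ∏ i, (if τ i ≠ ∅ then θ else 1) := by
        intro τ
        rw [supp, Finset.prod_ite, Finset.prod_const_one, mul_one, Finset.prod_const]
      rw [Finset.sum_congr rfl fun τ _ => e1 τ,
        ← Finset.prod_univ_sum (tI a I) (fun _ s => if s ≠ ∅ then θ else (1 : ℝ))]
      have e2 : (1 + 2 ^ a * θ) ^ Fintype.card V = ∏ _i : V, (1 + 2 ^ a * θ) := by
        rw [Finset.prod_const, Finset.card_univ]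
      rw [e2]
      refine Finset.prod_le_prod (fun i _ => Finset.sum_nonneg fun s _ => by
        split_ifs <;> positivity) fun i _ => ?_
      have e3 : ∑ s ∈ tI a I i, (if s ≠ ∅ then θ else (1 : ℝ)) ≤
          ∑ s : Finset (Fin a), (if s ≠ ∅ then θ else (1 : ℝ)) :=
        Finset.sum_le_sum_of_subset_of_nonneg (Finset.subset_univ _)
          fun s _ _ => by split_ifs <;> positivity
      refine e3.trans ?_
      rw [← Finset.add_sum_erase _ _ (Finset.mem_univ (∅ : Finset (Fin a)))]
      have e4 : ∑ s ∈ (Finset.univ : Finset (Finset (Fin a))).erase ∅,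
          (if s ≠ ∅ then θ else (1 : ℝ)) ≤ ∑ _s : Finset (Fin a), θ := by
        refine (Finset.sum_le_sum (g := fun _ => θ) fun s hs => ?_).trans
          (Finset.sum_le_sum_of_subset_of_nonneg (Finset.subset_univ _) fun _ _ _ => hθ0)
        rw [if_pos (Finset.ne_of_mem_erase hs)]
      rw [Finset.sum_const, Finset.card_univ, Fintype.card_finset, Fintype.card_fin,
        nsmul_eq_mul] at e4
      push_cast at e4
      simp only [ne_eq, not_true_eq_false, if_false]
      linarith
    have h3 : ∑ τ ∈ (Fintype.piFinset (tI a I)).erase (fun _ => ∅), θ ^ (supp τ).card ≤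
        (1 + 2 ^ a * θ) ^ Fintype.card V - 1 := by
      rw [← Finset.add_sum_erase _ _ hmem] at h2
      have e5 : (supp (fun _ : V => (∅ : Finset (Fin a)))).card = 0 := by
        rw [Finset.card_eq_zero, supp]
        simp
      rw [e5, pow_zero] at h2
      linarith
    have h4 := Pool.Agent.H92.Mono.one_add_pow_le (θ := 2 ^ a * θ) (by positivity)
      (Fintype.card V) (Fintype.card V) le_rfl hθn
    have h5 : ∑ τ ∈ (Fintype.piFinset (tI a I)).erase (fun _ => ∅),
        3 / 2 * θ ^ (supp τ).card * X.card * Y.card =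
        3 / 2 * (∑ τ ∈ (Fintype.piFinset (tI a I)).erase (fun _ => ∅), θ ^ (supp τ).card) *
          X.card * Y.card := by
      rw [Finset.mul_sum, Finset.sum_mul, Finset.sum_mul]
    rw [h5] at h1
    have h6 : 0 < (X.card : ℝ) * Y.card := by positivity
    nlinarith
  obtain ⟨x, hx, hlt⟩ := Finset.exists_lt_of_sum_lt hsum
  exact ⟨x, hx, fun z => exists_y2 Y I x hlt z⟩

end Pool.Agent.H97.Mono
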