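import Pool.Agent.H1.Mono.Targets
import Pool.Agent.H1.Mono.Targets2
import Pool.Agent.H92.Mono.Lvl

/-!
# Module LVL2: level inequality for weights
-/

open Finset

namespace Pool.Agent.H97.Mono

open Pool.Agent.H1.Mono

/-- weighted Jensen for even powers -/
lemma pow_wsum_even {α : Type} (s : Finset α) (f P : α → ℝ) (hf : ∀ u ∈ s, 0 ≤ f u)
    (hF : 0 < ∑ u ∈ s, f u) (r : ℕ) (hr : 0 < r) :
    (∑ u ∈ s, f u * P u) ^ (2 * r) ≤
      (∑ u ∈ s, f u) ^ (2 * r - 1) * ∑ u ∈ s, f u * P u ^ (2 * r) := by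
  obtain ⟨F, hFdef⟩ : ∃ F : ℝ, F = ∑ u ∈ s, f u := ⟨_, rfl⟩
  rw [← hFdef] at hF ⊢
  have h1 := Real.pow_arith_mean_le_arith_mean_pow_of_even s (fun u => F⁻¹ * f u) P
    (fun u hu => mul_nonneg (inv_nonneg.2 hF.le) (hf u hu))
    (by rw [← Finset.mul_sum, ← hFdef, inv_mul_cancel₀ hF.ne'])
    (even_two_mul r)
  have e1 : ∑ u ∈ s, F⁻¹ * f u * P u = F⁻¹ * ∑ u ∈ s, f u * P u := by
    rw [Finset.mul_sum]
    exact Finset.sum_congr rfl fun u _ => by ring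
  have e2 : ∑ u ∈ s, F⁻¹ * f u * P u ^ (2 * r) = F⁻¹ * ∑ u ∈ s, f u * P u ^ (2 * r) := by
    rw [Finset.mul_sum]
    exact Finset.sum_congr rfl fun u _ => by ring
  rw [e1, e2, mul_pow] at h1
  obtain ⟨m, hm⟩ : ∃ m, 2 * r = m + 1 := ⟨2 * r - 1, by omega⟩
  have h2 : 2 * r - 1 = m := by omega
  rw [h2]
  rw [hm] at h1 ⊢
  obtain ⟨A, hA⟩ : ∃ A : ℝ, A = (∑ u ∈ s, f u * P u) ^ (m + 1) := ⟨_, rfl⟩
  obtain ⟨B, hB⟩ : ∃ B : ℝ, B = ∑ u ∈ s, f u * P u ^ (m + 1) := ⟨_, rfl⟩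
  rw [← hA, ← hB] at h1 ⊢
  have hcc : F⁻¹ ^ (m + 1) * F ^ (m + 1) = 1 := by
    rw [← mul_pow, inv_mul_cancel₀ hF.ne', one_pow]
  have hc1 : F⁻¹ * F = 1 := inv_mul_cancel₀ hF.ne'
  have h3 := mul_le_mul_of_nonneg_right h1 (pow_nonneg hF.le (m + 1))
  calc A = (F⁻¹ ^ (m + 1) * F ^ (m + 1)) * A := by rw [hcc, one_mul]
    _ = F⁻¹ ^ (m + 1) * A * F ^ (m + 1) := by ring
    _ ≤ F⁻¹ * B * F ^ (m + 1) := h3
    _ = (F⁻¹ * F) * (F ^ m * B) := by rw [pow_succ]; ring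
    _ = F ^ m * B := by rw [hc1, one_mul]

theorem lvl2 (hMOM : MOM_target) : LVL2_target := by
  intro V Q _ _ _ _ f N K Δ hΔ hf hfN hF hN
  obtain ⟨F, hFdef⟩ : ∃ F : ℝ, F = ∑ u, f u := ⟨_, rfl⟩
  rw [← hFdef] at hF hN ⊢
  set c : ({i // i ∈ K} → Q) → ℝ := fun β => ∑ u, f u * ∏ i : {i // i ∈ K}, sgn (u i.1 (β i))
    with hc
  set S := ∑ β, c β ^ 2 with hS
  have hS0 : 0 ≤ S := Finset.sum_nonneg fun _ _ => sq_nonneg _
  set P : (V → Q → Bool) → ℝ := fun y => ∑ β, c β * ∏ i : {i // i ∈ K}, sgn (y i.1 (β i)) with hP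
  have h1 : S = ∑ u, f u * P u := by
    have e1 : ∀ u, f u * P u = ∑ β, c β * (f u * ∏ i : {i // i ∈ K}, sgn (u i.1 (β i))) := by
      intro u
      rw [hP, Finset.mul_sum]
      exact Finset.sum_congr rfl fun β _ => by ring
    rw [Finset.sum_congr rfl fun u _ => e1 u, hS, Finset.sum_comm]
    refine Finset.sum_congr rfl fun β _ => ?_
    rw [← Finset.mul_sum, sq]
  have h2 : S ^ (2 * Δ) ≤ F ^ (2 * Δ - 1) * ∑ u, f u * P u ^ (2 * Δ) := by
    rw [h1, hFdef]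
    exact pow_wsum_even Finset.univ f P (fun u _ => hf u) (hFdef ▸ hF) Δ hΔ
  have h3 : ∑ u, f u * P u ^ (2 * Δ) ≤ N * ∑ u, P u ^ (2 * Δ) := by
    rw [Finset.mul_sum]
    exact Finset.sum_le_sum fun u _ =>
      mul_le_mul_of_nonneg_right (hfN u) ((even_two_mul Δ).pow_nonneg _)
  have h4 := Pool.Agent.H92.Mono.sum_restrict K (fun y : {i // i ∈ K} → Q → Bool =>
    (∑ β, c β * ∏ i : {i // i ∈ K}, sgn (y i (β i))) ^ (2 * Δ))
  have h5 := hMOM (Q := Q) (ι := {i // i ∈ K}) c Δ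
  rw [Fintype.card_coe] at h5
  have hKV : K.card ≤ Fintype.card V := Finset.card_le_univ K
  have h6 : ∑ y, P y ^ (2 * Δ) ≤ 2 ^ (Fintype.card V * Fintype.card Q) *
      ((2 * Δ : ℝ) ^ (Δ * K.card) * S ^ Δ) := by
    rw [hP]
    refine (le_of_eq h4).trans ((mul_le_mul_of_nonneg_left h5 (by positivity)).trans
      (le_of_eq ?_))
    have e : Fintype.card V * Fintype.card Q =
        (Fintype.card V - K.card) * Fintype.card Q + K.card * Fintype.card Q := by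
      rw [← Nat.add_mul, Nat.sub_add_cancel hKV]
    rw [e, pow_add]
    ring
  have hN0 : 0 ≤ N := by
    have : (∑ u, f u) ≤ ∑ _u : V → Q → Bool, N := Finset.sum_le_sum fun u _ => hfN u
    rw [Finset.sum_const, nsmul_eq_mul, ← hFdef] at this
    by_contra h
    push Not at h
    have h' : ((Finset.univ : Finset (V → Q → Bool)).card : ℝ) * N ≤ 0 :=
      mul_nonpos_of_nonneg_of_nonpos (Nat.cast_nonneg _) h.le
    linarith
  set D : ℝ := (2 * Δ : ℝ) ^ K.card with hD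
  have hD0 : 0 ≤ D := by positivity
  have h7 : S ^ (2 * Δ) ≤ (2 * D * F ^ 2 * S) ^ Δ := by
    calc S ^ (2 * Δ) ≤ F ^ (2 * Δ - 1) *
          (N * (2 ^ (Fintype.card V * Fintype.card Q) *
            ((2 * Δ : ℝ) ^ (Δ * K.card) * S ^ Δ))) :=
        h2.trans (mul_le_mul_of_nonneg_left
          (h3.trans (mul_le_mul_of_nonneg_left h6 hN0)) (by positivity))
      _ = F ^ (2 * Δ - 1) * ((N * 2 ^ (Fintype.card V * Fintype.card Q)) *
            ((2 * Δ : ℝ) ^ (Δ * K.card) * S ^ Δ)) := by ring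
      _ ≤ F ^ (2 * Δ - 1) *
          ((F * 2 ^ Δ) * ((2 * Δ : ℝ) ^ (Δ * K.card) * S ^ Δ)) := by
        refine mul_le_mul_of_nonneg_left (mul_le_mul_of_nonneg_right hN ?_) (by positivity)
        exact mul_nonneg (by positivity) (pow_nonneg hS0 _)
      _ = (2 * D * F ^ 2 * S) ^ Δ := by
        have e1 : F ^ (2 * Δ - 1) * F = (F ^ 2) ^ Δ := by
          rw [← pow_succ, ← pow_mul]
          congr 1
          omega
        have e2 : (2 * Δ : ℝ) ^ (Δ * K.card) = D ^ Δ := by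
          rw [hD, ← pow_mul, mul_comm Δ K.card]
        rw [e2, mul_pow (2 * D * F ^ 2) S, mul_pow (2 * D), mul_pow 2 D, ← e1]
        ring
  rw [pow_mul] at h7
  have h8 : S ^ 2 ≤ 2 * D * F ^ 2 * S := by
    have h9 : 0 ≤ 2 * D * F ^ 2 * S := mul_nonneg (by positivity) hS0
    exact le_of_pow_le_pow_left₀ hΔ.ne' h9 h7
  rcases hS0.eq_or_lt with h | h
  · rw [← h]
    positivity
  · have : S * S ≤ (2 * D * F ^ 2) * S := by rw [← sq]; exact h8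
    exact le_of_mul_le_mul_right this h

end Pool.Agent.H97.Mono
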